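import Pool.Agent.Helper45.CF.GoalsC

/-!
# Project CF (MP_d97caa_an), second stage, packet DST: the common step
-/

set_option autoImplicit false

open scoped ComplexOrder ZeroAtInfty Topology ComplexConjugate NNReal
open TopologicalSpace Filter

namespace Pool.Agent.Helper37.CF2.DST

open Pool.Agent.Helper34.CAR Pool.Agent.Helper39.CR Pool.Agent.Helper45.CF

noncomputable section

variable {R I C K : Type} [CStarAlgebra R] [Fintype I] [DecidableEq I] [Fintype C]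
  [DecidableEq C] [Fintype K] [DecidableEq K]

/-- Reindexing along a bijection. -/
def reix (e : K ≃ I) : Mt I R →⋆ₐ[ℂ] Mt K R where
  toFun a := Mt.of fun p q => a (e p) (e q)
  map_one' := by
    ext p q
    simp only [Mt.of_apply, Mt.one_apply, e.injective.eq_iff]
  map_mul' a b := by
    ext p q
    simp only [Mt.of_apply, Mt.mul_apply]
    exact (e.sum_comp fun k => a (e p) k * b k (e q)).symm
  map_zero' := by
    ext p q
    rfl
  map_add' a b := by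
    ext p q
    rfl
  commutes' c := by
    ext p q
    simp only [Mt.of_apply, Mt.algebraMap_apply, e.injective.eq_iff]
  map_star' a := by
    ext p q
    rfl

theorem reix_apply (e : K ≃ I) (a : Mt I R) (p q : K) : reix e a p q = a (e p) (e q) := rfl

theorem bd_mul (a a' : Mt I R) (c c' : Mt C R) : bd a c * bd a' c' = bd (a * a') (c * c') := by
  ext p q
  rcases p with p | p <;> rcases q with q | q <;>
    simp [bd, Mt.of_apply, Mt.mul_apply, Fintype.sum_sum_type]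

theorem bd_star (a : Mt I R) (c : Mt C R) : star (bd a c) = bd (star a) (star c) := by
  ext p q
  rcases p with p | p <;> rcases q with q | q <;> simp [bd, Mt.of_apply, Mt.star_apply]

theorem bd_sub (a a' : Mt I R) (c c' : Mt C R) : bd a c - bd a' c' = bd (a - a') (c - c') := by
  ext p q
  rcases p with p | p <;> rcases q with q | q <;> simp [bd, Mt.of_apply]

theorem bd_add (a a' : Mt I R) (c c' : Mt C R) : bd a c + bd a' c' = bd (a + a') (c + c') := by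
  ext p q
  rcases p with p | p <;> rcases q with q | q <;> simp [bd, Mt.of_apply]

theorem bd_one : bd (1 : Mt I R) (1 : Mt C R) = 1 := by
  ext p q
  rcases p with p | p <;> rcases q with q | q <;>
    simp [bd, Mt.of_apply, Mt.one_apply, Sum.inl.injEq, Sum.inr.injEq]

/-- The corner embedding. -/
def cor (I C : Type) [Fintype I] [DecidableEq I] [Fintype C] [DecidableEq C] :
    Mt I R →⋆ₙₐ[ℂ] Mt (I ⊕ C) R where
  toFun a := bd a 0
  map_smul' c a := by
    ext p q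
    rcases p with p | p <;> rcases q with q | q <;> simp [bd, Mt.of_apply]
  map_zero' := by
    ext p q
    rcases p with p | p <;> rcases q with q | q <;> simp [bd, Mt.of_apply]
  map_add' a b := by
    rw [bd_add, add_zero]
  map_mul' a b := by
    rw [bd_mul, mul_zero]
  map_star' a := by
    rw [bd_star, star_zero]

theorem norm_bd_le (a : Mt I R) : ‖bd a (0 : Mt C R)‖ ≤ ‖a‖ :=
  NonUnitalStarAlgHom.norm_apply_le (cor I C) a

theorem norm_reix_le (e : K ≃ I) (a : Mt I R) : ‖reix e a‖ ≤ ‖a‖ :=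
  NonUnitalStarAlgHom.norm_apply_le (reix e) a

/-- The estimate for a block. -/
theorem blk_est (e : K ≃ I ⊕ C) (A X w : Mt I R) (S : Mt C R) (ε : ℝ)
    (h : ‖A - star w * X * w‖ < ε) :
    ‖reix e (bd A S) - star (reix e (bd w 1)) * reix e (bd X S) * reix e (bd w 1)‖ < ε := by
  rw [← map_star, ← map_mul, ← map_mul, ← map_sub, bd_star, bd_mul, bd_mul, bd_sub, star_one,
    one_mul, mul_one, sub_self]
  exact (norm_reix_le e _).trans_lt ((norm_bd_le _).trans_lt h)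

theorem blk_uni (e : K ≃ I ⊕ C) (w : Mt I R) (h : star w * w = 1) :
    star (reix e (bd w (1 : Mt C R))) * reix e (bd w 1) = 1 := by
  rw [← map_star, ← map_mul, bd_star, bd_mul, h, star_one, one_mul, bd_one, map_one]

theorem blk_uni' (e : K ≃ I ⊕ C) (w : Mt I R) (h : w * star w = 1) :
    reix e (bd w 1) * star (reix e (bd w (1 : Mt C R))) = 1 := by
  rw [← map_star, ← map_mul, bd_star, bd_mul, h, star_one, one_mul, bd_one, map_one]

theorem continuous_blk (e : K ≃ I ⊕ C) :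
    Continuous fun w : Mt I R => reix e (bd w (1 : Mt C R)) := by
  have h1 : ∀ w : Mt I R, reix e (bd w (1 : Mt C R)) =
      reix e (cor I C w) + reix e (bd 0 1) := by
    intro w
    rw [← map_add]
    congr 1
    show bd w 1 = bd w 0 + bd 0 1
    rw [bd_add, add_zero, zero_add]
  rw [funext h1]
  refine Continuous.add ?_ continuous_const
  have h2 : Continuous (reix e : Mt (I ⊕ C) R → Mt K R) :=
    AddMonoidHomClass.continuous_of_bound (reix e) 1 fun x => by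
      simpa using norm_reix_le e x
  have h3 : Continuous (cor I C : Mt I R → Mt (I ⊕ C) R) :=
    AddMonoidHomClass.continuous_of_bound (cor I C) 1 fun x => by
      rw [one_mul]
      exact norm_bd_le x
  exact h2.comp h3

/-- The bijections. -/
def e1 (J1 J2 N : Type) : (Fin 2 ⊕ Unit) ⊕ ((J1 ⊕ J2) ⊕ N) ≃ (Fin 2 ⊕ J1) ⊕ (Unit ⊕ (J2 ⊕ N)) where
  toFun p := match p with
    | .inl (.inl x) => .inl (.inl x)
    | .inl (.inr u) => .inr (.inl u)
    | .inr (.inl (.inl x)) => .inl (.inr x)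
    | .inr (.inl (.inr x)) => .inr (.inr (.inl x))
    | .inr (.inr x) => .inr (.inr (.inr x))
  invFun p := match p with
    | .inl (.inl x) => .inl (.inl x)
    | .inr (.inl u) => .inl (.inr u)
    | .inl (.inr x) => .inr (.inl (.inl x))
    | .inr (.inr (.inl x)) => .inr (.inl (.inr x))
    | .inr (.inr (.inr x)) => .inr (.inr x)
  left_inv p := by
    rcases p with (p | p) | ((p | p) | p) <;> rfl
  right_inv p := by
    rcases p with (p | p) | (p | (p | p)) <;> rfl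

def e2 (J1 J2 N : Type) :
    (Fin 2 ⊕ Unit) ⊕ ((J1 ⊕ J2) ⊕ N) ≃ ((Fin 2 ⊕ Unit) ⊕ J2) ⊕ (J1 ⊕ N) where
  toFun p := match p with
    | .inl x => .inl (.inl x)
    | .inr (.inl (.inl x)) => .inr (.inl x)
    | .inr (.inl (.inr x)) => .inl (.inr x)
    | .inr (.inr x) => .inr (.inr x)
  invFun p := match p with
    | .inl (.inl x) => .inl x
    | .inr (.inl x) => .inr (.inl (.inl x))
    | .inl (.inr x) => .inr (.inl (.inr x))
    | .inr (.inr x) => .inr (.inr x)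
  left_inv p := by
    rcases p with p | ((p | p) | p) <;> rfl
  right_inv p := by
    rcases p with (p | p) | (p | p) <;> rfl

section

variable {B B' J1 J2 N : Type} [CStarAlgebra B] [CStarAlgebra B'] [Fintype J1] [DecidableEq J1]
  [Fintype J2] [DecidableEq J2] [Fintype N] [DecidableEq N]

theorem kst_dec (θ : B →⋆ₐ[ℂ] B) (ω : B →⋆ₐ[ℂ] ℂ) (inc : B →⋆ₐ[ℂ] B') (s1 : B' →⋆ₐ[ℂ] Mt J1 ℂ)
    (s2 : B' →⋆ₐ[ℂ] Mt J2 ℂ) (χ : B' →⋆ₐ[ℂ] Mt N ℂ) (b : B) :
    kst θ ω ((osum (osum s1 s2) χ).comp inc) b = reix (e1 J1 J2 N)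
      (bd (osum (Sys2.Ktriv θ) (scl B (s1.comp inc)) b)
        (scl B (osum (chM ω) (osum (s2.comp inc) (χ.comp inc))) b)) := by
  ext p q
  rcases p with (p | p) | ((p | p) | p) <;> rcases q with (q | q) | ((q | q) | q) <;>
    first
    | rfl
    | exact map_zero (algebraMap ℂ B)
    | exact (map_zero (algebraMap ℂ B)).symm

theorem rot_dec (θ' : B' →⋆ₐ[ℂ] B') (ω' : B' →⋆ₐ[ℂ] ℂ) (s1 : B' →⋆ₐ[ℂ] Mt J1 ℂ)
    (s2 : B' →⋆ₐ[ℂ] Mt J2 ℂ) (χ : B' →⋆ₐ[ℂ] Mt N ℂ) (y : Sphere2) (b : B') :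
    rotM θ' ω' (osum (osum s1 s2) χ) y b = reix (e2 J1 J2 N)
      (bd (rotM θ' ω' s2 y b) (scl B' (osum s1 χ) b)) := by
  rw [rotM_eq, rotM_eq]
  ext p q
  rcases p with p | ((p | p) | p) <;> rcases q with q | ((q | q) | q) <;>
    first
    | rfl
    | exact map_zero (algebraMap ℂ B')

theorem scal_dec (x : Fin 2 ⊕ J1 → Fin 2 ⊕ J1 → ℂ)
    (τ : B →⋆ₐ[ℂ] Mt (Unit ⊕ (J2 ⊕ N)) ℂ) (b : B) :
    ∃ z : (Fin 2 ⊕ Unit) ⊕ ((J1 ⊕ J2) ⊕ N) → (Fin 2 ⊕ Unit) ⊕ ((J1 ⊕ J2) ⊕ N) → ℂ,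
      (Mt.scal z : Mt _ B) = reix (e1 J1 J2 N) (bd (Mt.scal x) (scl B τ b)) := by
  refine ⟨fun p q => reix (e1 J1 J2 N) (bd (Mt.of x) (τ b)) p q, ?_⟩
  ext p q
  rw [Mt.scal_apply, reix_apply, reix_apply]
  rcases e1 J1 J2 N p with p | p <;> rcases e1 J1 J2 N q with q | q
  · rfl
  · exact map_zero _
  · exact map_zero _
  · rfl

theorem rho_dec (ρ : B' →⋆ₐ[ℂ] Mt ((Fin 2 ⊕ Unit) ⊕ J2) ℂ) (τ : B' →⋆ₐ[ℂ] Mt (J1 ⊕ N) ℂ)
    (b : B') :
    scl B' ((reix (e2 J1 J2 N)).comp (osum ρ τ)) b =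
      reix (e2 J1 J2 N) (bd (scl B' ρ b) (scl B' τ b)) := by
  ext p q
  rw [scl_apply, reix_apply]
  show algebraMap ℂ B' (bd (ρ b) (τ b) (e2 J1 J2 N p) (e2 J1 J2 N q)) = _
  rcases e2 J1 J2 N p with p | p <;> rcases e2 J1 J2 N q with q | q
  · rfl
  · exact map_zero _
  · exact map_zero _
  · rfl

end

/-- The common step for a pair. -/
theorem step {B B' : Type} [CStarAlgebra B] [CStarAlgebra B'] (P : Pr B B')
    (h1 : ∀ (F : Finset B) (ε : ℝ), 0 < ε → ∃ (J : Type) (_ : Fintype J)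
      (_ : DecidableEq J) (s : B' →⋆ₐ[ℂ] Mt J ℂ)
      (w : Mt (Fin 2 ⊕ J) B), star w * w = 1 ∧ w * star w = 1 ∧
      ∀ b ∈ F, ∃ x : Fin 2 ⊕ J → Fin 2 ⊕ J → ℂ,
        ‖osum (Sys2.Ktriv P.θ) (scl B (s.comp P.inc)) b - star w * Mt.scal x * w‖ < ε)
    (h2 : ∀ (F : Finset B') (ε : ℝ), 0 < ε → ∃ (J : Type) (_ : Fintype J)
      (_ : DecidableEq J) (s : B' →⋆ₐ[ℂ] Mt J ℂ)
      (w : C(Sphere2, Mt ((Fin 2 ⊕ Unit) ⊕ J) B'))
      (ρ : B' →⋆ₐ[ℂ] Mt ((Fin 2 ⊕ Unit) ⊕ J) ℂ),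
      star w * w = 1 ∧ w * star w = 1 ∧ ∀ b ∈ F, ∀ y,
        ‖rotM P.θ' P.ω' s y b - star (w y) * scl B' ρ b * w y‖ < ε) : P.Step := by
  intro F F' ε hε
  obtain ⟨J1, i1, i2, s1, w1, hw1, hw1', hF⟩ := h1 F ε hε
  obtain ⟨J2, i3, i4, s2, w2, ρ2, hw2, hw2', hF'⟩ := h2 F' ε hε
  set a : ℕ := 3 + Fintype.card J1 + Fintype.card J2 with ha
  set n : ℕ := 2 ^ a - a with hn
  set χ : B' →⋆ₐ[ℂ] Mt (Fin n) ℂ := (algC (Mt (Fin n) ℂ)).comp P.ω' with hχ
  refine ⟨a, (J1 ⊕ J2) ⊕ Fin n, inferInstance, inferInstance, osum (osum s1 s2) χ,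
    reix (e1 J1 J2 (Fin n)) (bd w1 1),
    ⟨fun y => reix (e2 J1 J2 (Fin n)) (bd (w2 y) 1), (continuous_blk _).comp w2.continuous⟩,
    (reix (e2 J1 J2 (Fin n))).comp (osum ρ2 (osum s1 χ)), ?_, blk_uni _ _ hw1, blk_uni' _ _ hw1',
    ?_, ?_, ?_, ?_⟩
  · simp only [Fintype.card_sum, Fintype.card_fin, Fintype.card_unit]
    have h := (Nat.lt_two_pow_self : a < 2 ^ a)
    omega
  · ext y : 1
    exact blk_uni _ _ (by simpa using DFunLike.congr_fun hw2 y)
  · ext y : 1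
    exact blk_uni' _ _ (by simpa using DFunLike.congr_fun hw2' y)
  · intro b hb
    obtain ⟨x, hx⟩ := hF b hb
    obtain ⟨z, hz⟩ := scal_dec (J1 := J1) (J2 := J2) (N := Fin n) x
      (osum (chM P.ω) (osum (s2.comp P.inc) (χ.comp P.inc))) b
    refine ⟨z, ?_⟩
    rw [kst_dec, hz]
    exact blk_est _ _ _ _ _ _ hx
  · intro b hb y
    rw [rot_dec, rho_dec]
    exact blk_est _ _ _ _ _ _ (hF' b hb y)

theorem t : Pool.Agent.Helper45.CF.S_SML → Pool.Agent.Helper45.CF.S_BIG →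
    Pool.Agent.Helper45.CF.S_DST := fun h1 h2 E _ hE => step (prE E) (h1 E hE) (h2 E hE)

end

end Pool.Agent.Helper37.CF2.DST
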